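import Pool.Agent.N24.RW.Stm
import Pool.Agent.N692.TS.Main

set_option autoImplicit false

/-!
# Coefficient vectors over a number field without a good prime form a pronull set (helper407)
-/

namespace Pool.Agent.N407.RO

open Filter Topology NumberField IsDedekindDomain Pool.Agent.N24.RW
open Pool.Agent.N692.TS (LocGood vec Gd supply_sum mem_Gd dens_Gd not_mem_of_norm)
open Pool.Agent.N666.TM (dens)

/-- the vectors that are not good at any prime of norm greater than `M` form a pronull set -/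
theorem proNull_locGood (hC : S_CRIT) (hD : S_CLO) {K : Type} [Field K] [NumberField K] {m : ℕ}
    (ω : Module.Basis (Fin m) ℤ (𝓞 K)) (d : ℕ) (hd : 2 ≤ d) (M : ℕ) :
    ProNull {c : Fin (d + 2) × Fin m → ℤ | ¬ LocGood d M (vec ω d c)} := by
  classical
  have hd0 : (0 : ℝ) < d := by exact_mod_cast (by omega : 0 < d)
  -- a place of norm `p`, if there is one
  have hpl : ∃ v : ℕ → HeightOneSpectrum (𝓞 K), ∀ p : ℕ,
      (∃ v' : HeightOneSpectrum (𝓞 K), Ideal.absNorm v'.asIdeal = p) →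
        Ideal.absNorm (v p).asIdeal = p := by
    obtain ⟨U, v0, -, -⟩ := supply_sum K M 0
    refine ⟨fun p => if h : ∃ v' : HeightOneSpectrum (𝓞 K), Ideal.absNorm v'.asIdeal = p then h.choose
      else v0 0, fun p h => ?_⟩
    simp only
    rw [dif_pos h]
    exact h.choose_spec
  obtain ⟨v, hv⟩ := hpl
  let Ω : ∀ p : ℕ, Set (Fin (d + 2) × Fin m → ZMod (p ^ 2)) := fun p =>
    if hp : Ideal.absNorm (v p).asIdeal = p then Gd ω d (v p) p hp else ∅
  let w : ℕ → ℝ := fun p => if Ideal.absNorm (v p).asIdeal = p ∧ p.Prime then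
    1 / (4 * d) * (1 / (p : ℝ) - 1 / (p : ℝ) ^ 2) else 0
  have hterm : ∀ p : ℕ, p.Prime → 0 ≤ 1 / (4 * (d : ℝ)) * (1 / (p : ℝ) - 1 / (p : ℝ) ^ 2) := by
    intro p hp
    have h2 : (1 : ℝ) ≤ p := by exact_mod_cast hp.one_le
    have h3 : 1 / (p : ℝ) ^ 2 ≤ 1 / (p : ℝ) := by
      apply one_div_le_one_div_of_le (by linarith)
      nlinarith
    have h4 : 0 ≤ 1 / (p : ℝ) - 1 / (p : ℝ) ^ 2 := by linarith
    positivity
  have hw0 : ∀ p, 0 ≤ w p := by
    intro p
    simp only [w]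
    split_ifs with h
    · exact hterm p h.2
    · exact le_refl _
  have hns : ¬ Summable (fun p : ℕ => if p.Prime then w p else 0) := by
    intro hs
    obtain ⟨P, u, hP, hsum⟩ := supply_sum K M
      (4 * d * ((∑' p : ℕ, if p.Prime then w p else 0) + 1))
    have h1 := hs.sum_le_tsum P (fun p _ => by
      split_ifs
      · exact hw0 p
      · exact le_refl _)
    have h2 : ∑ p ∈ P, (if p.Prime then w p else 0) =
        ∑ p ∈ P, 1 / (4 * (d : ℝ)) * (1 / (p : ℝ) - 1 / (p : ℝ) ^ 2) := by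
      refine Finset.sum_congr rfl fun p hp => ?_
      obtain ⟨a1, a2, a3⟩ := hP p hp
      rw [if_pos a1]
      simp only [w]
      rw [if_pos ⟨hv p ⟨u p, a3⟩, a1⟩]
    rw [h2, ← Finset.mul_sum] at h1
    have h3 : (∑' p : ℕ, if p.Prime then w p else 0) + 1 ≤
        1 / (4 * (d : ℝ)) * ∑ p ∈ P, (1 / (p : ℝ) - 1 / (p : ℝ) ^ 2) := by
      calc (∑' p : ℕ, if p.Prime then w p else 0) + 1 =
          1 / (4 * (d : ℝ)) * (4 * d * ((∑' p : ℕ, if p.Prime then w p else 0) + 1)) := by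
            field_simp
        _ ≤ _ := mul_le_mul_of_nonneg_left hsum (by positivity)
    linarith
  have hΩ : ∀ p : ℕ, p.Prime → M < p →
      w p * ((p ^ 2 : ℕ) : ℝ) ^ Fintype.card (Fin (d + 2) × Fin m) ≤ ((Ω p).ncard : ℝ) := by
    intro p hp _
    by_cases h : Ideal.absNorm (v p).asIdeal = p
    · have h1 := dens_Gd ω d (v p) p h hd hp
      have h2 : w p = 1 / (4 * d) * (1 / (p : ℝ) - 1 / (p : ℝ) ^ 2) := by
        simp only [w]
        rw [if_pos ⟨h, hp⟩]
      have h3 : Ω p = Gd ω d (v p) p h := by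
        simp only [Ω]
        rw [dif_pos h]
      rw [h2, h3]
      unfold dens at h1
      have hpos : (0 : ℝ) < ((p ^ 2 : ℕ) : ℝ) ^ Fintype.card (Fin (d + 2) × Fin m) := by
        have : 0 < p := hp.pos
        positivity
      rwa [le_div_iff₀ hpos] at h1
    · have h2 : w p = 0 := by
        simp only [w]
        rw [if_neg (fun h' => h h'.1)]
      rw [h2, zero_mul]
      exact Nat.cast_nonneg _
  have h1 := hC (Fin (d + 2) × Fin m) (fun p => p ^ 2) (fun p hp => Nat.one_le_pow _ _ hp.pos)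
    (fun p p' hp hp' hne => Nat.Coprime.pow 2 2 ((Nat.coprime_primes hp hp').2 hne)) Ω M w hw0 hns hΩ
  refine (hD (Fin (d + 2) × Fin m)).1 _ _ ?_ h1
  intro c hc p hp hpM hmem
  apply hc
  simp only [Ω] at hmem
  split_ifs at hmem with h
  · exact ⟨v p, not_mem_of_norm (v p) hp hpM h, mem_Gd ω d (v p) p h c hmem⟩
  · exact absurd hmem (Set.notMem_empty _)

theorem proNull_empty (ι : Type) [Fintype ι] : ProNull (∅ : Set (ι → ℤ)) := by
  intro M _ ε hε
  refine ⟨1, one_pos, Nat.coprime_one_left M, ?_⟩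
  rw [Set.image_empty, Set.ncard_empty]
  push_cast
  positivity

/-- a smaller set of times -/
theorem tendsto_zero_mono {A B : Set ℕ} (hAB : A ⊆ B)
    (h : Tendsto (fun N : ℕ => (({n : ℕ | n < N ∧ n ∈ B}.ncard : ℕ) : ℝ) / (N : ℝ)) atTop (𝓝 0)) :
    Tendsto (fun N : ℕ => (({n : ℕ | n < N ∧ n ∈ A}.ncard : ℕ) : ℝ) / (N : ℝ)) atTop (𝓝 0) := by
  refine squeeze_zero (fun N => by positivity) (fun N => ?_) h
  refine div_le_div_of_nonneg_right ?_ (Nat.cast_nonneg N)
  have h1 : {n : ℕ | n < N ∧ n ∈ A}.ncard ≤ {n : ℕ | n < N ∧ n ∈ B}.ncard :=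
    Set.ncard_le_ncard (fun n hn => ⟨hn.1, hAB hn.2⟩)
      ((Set.finite_Iio N).subset fun n hn => hn.1)
  exact_mod_cast h1

open Pool.Agent.N692.TS (code exists_equiv locGood_transfer) in
/-- the random orbit of one vector: almost surely almost all members are good for all number fields of
degree `m`, all integral bases and all `M` -/
theorem ae_locGood (hC : S_CRIT) (hD : S_CLO) (hM : S_MAIN) (d m : ℕ) (hd : 2 ≤ d)
    (W : Walk (Fin (d + 2) × Fin m)) (v : Fin (d + 2) × Fin m → ℤ) (hv : v ≠ 0) :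
    ∀ᵐ w ∂(words W.m), ∀ (K : Type) [Field K] [NumberField K] (ω : Module.Basis (Fin m) ℤ (𝓞 K))
      (M : ℕ), Tendsto (fun N : ℕ =>
        (({n : ℕ | n < N ∧ ¬ LocGood d M (vec ω d (orb W v w n))}.ncard : ℕ) : ℝ) / (N : ℝ))
          atTop (𝓝 0) := by
  classical
  rcases Nat.eq_zero_or_pos m with hm | hm
  · subst hm
    exact absurd (funext fun q => q.2.elim0) hv
  have hcard : 2 ≤ Fintype.card (Fin (d + 2) × Fin m) := by
    rw [Fintype.card_prod, Fintype.card_fin, Fintype.card_fin]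
    nlinarith
  let B : (Fin m × Fin m × Fin m → ℤ) → ℕ → Set (Fin (d + 2) × Fin m → ℤ) := fun κ M =>
    {c | ∃ (K : Type) (_ : Field K) (_ : NumberField K) (ω : Module.Basis (Fin m) ℤ (𝓞 K)),
      code ω = κ ∧ ¬ LocGood d M (vec ω d c)}
  have hB : ∀ κ M, ProNull (B κ M) := by
    intro κ M
    by_cases hex : ∃ (K : Type) (_ : Field K) (_ : NumberField K)
        (ω : Module.Basis (Fin m) ℤ (𝓞 K)), code ω = κ
    · obtain ⟨K₀, _, _, ω₀, hω₀⟩ := hex
      refine (hD _).1 _ _ ?_ (proNull_locGood hC hD ω₀ d hd M)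
      rintro c ⟨K, _, _, ω, hω, hn⟩ hgood
      apply hn
      obtain ⟨e, he⟩ := exists_equiv ω₀ ω (hω₀.trans hω.symm)
      have h1 := locGood_transfer e d M _ hgood
      have h2 : (fun i => e (vec ω₀ d c i)) = vec ω d c := by
        funext i
        unfold vec
        rw [map_sum]
        refine Finset.sum_congr rfl fun j _ => ?_
        rw [map_zsmul, he]
      rwa [h2] at h1
    · have he : B κ M = ∅ := by
        rw [Set.eq_empty_iff_forall_notMem]
        rintro n ⟨K, i1, i2, ω, hω, -⟩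
        exact hex ⟨K, i1, i2, ω, hω⟩
      rw [he]
      exact proNull_empty _
  have h1 : ∀ κM : (Fin m × Fin m × Fin m → ℤ) × ℕ, ∀ᵐ w ∂(words W.m),
      Tendsto (fun N : ℕ => (({n : ℕ | n < N ∧ orb W v w n ∈ B κM.1 κM.2}.ncard : ℕ) : ℝ) / (N : ℝ))
        atTop (𝓝 0) := fun κM => hM _ hcard W v hv _ (hB κM.1 κM.2)
  have h2 := MeasureTheory.ae_all_iff.2 h1
  filter_upwards [h2] with w hw K _ _ ω M
  refine tendsto_zero_mono (A := {n | ¬ LocGood d M (vec ω d (orb W v w n))})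
    (B := {n | orb W v w n ∈ B (code ω) M}) ?_ (hw (code ω, M))
  intro n hn
  exact ⟨K, inferInstance, inferInstance, ω, rfl, hn⟩

end Pool.Agent.N407.RO
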