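import Pool.Agent.N24.RW.Stm
import Pool.Agent.N84.TS.Quad

set_option autoImplicit false

/-!
# Good tuples of quadratic rational functions: the exceptional set is pronull (helper407)
-/

namespace Pool.Agent.N407.RO

open Filter Topology Pool.Agent.N24.RW Pool.Agent.N84.TS Pool.Agent.TH838.DS

theorem not_summable_prime_const (κ : ℝ) (hκ : 0 < κ) :
    ¬ Summable (fun p : ℕ => if p.Prime then κ else 0) := by
  intro h
  have h1 := h.tendsto_atTop_zero
  have h2 := (tendsto_order.1 h1).2 κ hκ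
  obtain ⟨N, hN⟩ := eventually_atTop.1 h2
  obtain ⟨p, hp, hpp⟩ := Nat.exists_infinite_primes N
  have h3 := hN p hp
  rw [if_pos hpp] at h3
  exact lt_irrefl _ h3

theorem proNull_goodQ (hC : S_CRIT) (hD : S_CLO) (k : ℕ) (hk : 1 ≤ k) :
    ProNull {c : Fin k × Fin 2 × Fin (2 + 1) → ℤ | ¬ GoodQ k c} := by
  classical
  have hne : Nonempty (Fin k) := ⟨⟨0, hk⟩⟩
  have hcard : Fintype.card (Fin k × Fin 2 × Fin (2 + 1)) = 6 * k := by
    rw [Fintype.card_prod, Fintype.card_prod, Fintype.card_fin, Fintype.card_fin,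
      Fintype.card_fin]
    ring
  let G : ∀ p : ℕ, Set ((Fin k × Fin 2 × Fin (2 + 1)) → ZMod p) := fun p =>
    {w | ∃ _ : Fact p.Prime, GoodT fun (i : Fin k) (q : Fin 2 × Fin (2 + 1)) => w (i, q)}
  set κ : ℝ := 1 / (2 * 4 ^ k * 16 ^ (k * k)) with hκ
  have hκ0 : 0 < κ := by positivity
  have hG : ∀ p : ℕ, p.Prime → 2 * 16 ^ k < p →
      κ * (p : ℝ) ^ Fintype.card (Fin k × Fin 2 × Fin (2 + 1)) ≤ ((G p).ncard : ℝ) := by
    intro p hp hpT
    have hpp : Fact p.Prime := ⟨hp⟩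
    have h1 := count_good (p := p) (ι := Fin k) (by rw [Fintype.card_fin]; exact hpT.le)
    rw [Fintype.card_fin] at h1
    rw [hcard]
    refine h1.trans (le_of_eq ?_)
    congr 1
    let E : (Fin k → Fin 2 × Fin (2 + 1) → ZMod p) ≃ ((Fin k × Fin 2 × Fin (2 + 1)) → ZMod p) :=
      { toFun := fun c j => c j.1 j.2
        invFun := fun w i q => w (i, q)
        left_inv := fun c => rfl
        right_inv := fun w => rfl }
    refine Nat.card_congr (E.subtypeEquiv fun c => ?_)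
    constructor
    · intro h
      exact ⟨hpp, h⟩
    · rintro ⟨_, h⟩
      exact h
  have h1 := hC (Fin k × Fin 2 × Fin (2 + 1)) (fun p => p) (fun p hp => hp.one_le)
    (fun p p' hp hp' hne => (Nat.coprime_primes hp hp').2 hne) G (2 * 16 ^ k) (fun _ => κ)
    (fun _ => hκ0.le) (not_summable_prime_const κ hκ0) hG
  refine (hD (Fin k × Fin 2 × Fin (2 + 1))).1 _ _ ?_ h1
  intro c hc p hp hpT hG'
  obtain ⟨hpp, h⟩ := hG'
  apply hc
  refine ⟨p, hpp, ?_, h⟩
  have h1 : 16 ^ 1 ≤ 16 ^ k := Nat.pow_le_pow_right (by norm_num) hk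
  omega

end Pool.Agent.N407.RO
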